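import Pool.Agent.helper72.UP.Spec

set_option autoImplicit false

namespace Pool.Agent.helper72.UP

open Finset

private theorem FOE_mono (n : ℕ) : ∀ d s : ℕ, s + d ≤ n / 2 → n.choose s ≤ n.choose (s + d) := by
  intro d
  induction d with
  | zero => intro s _; exact le_rfl
  | succ d ih =>
    intro s hs
    refine (ih s (by omega)).trans ?_
    rw [← add_assoc]
    exact Nat.choose_le_succ_of_lt_half_left (by omega)

private theorem FOE_out (k r : ℕ) (hr : r ≤ 2 * k + 2) (h : r < k ∨ k + 3 ≤ r) :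
    (2 * k + 2).choose r ≤ (2 * k + 2).choose (k + 3) := by
  have hk : 1 ≤ k := by omega
  have key : ∀ s : ℕ, s < k → (2 * k + 2).choose s ≤ (2 * k + 2).choose (k + 3) := by
    intro s hs
    have h1 : (2 * k + 2).choose (k + 3) = (2 * k + 2).choose (k - 1) :=
      Nat.choose_symm_of_eq_add (by omega)
    rw [h1]
    have h2 := FOE_mono (2 * k + 2) (k - 1 - s) s (by omega)
    have h3 : s + (k - 1 - s) = k - 1 := by omega
    rwa [h3] at h2
  rcases h with h | h
  · exact key r h
  · have h1 : (2 * k + 2).choose r = (2 * k + 2).choose (2 * k + 2 - r) :=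
      Nat.choose_symm_of_eq_add (by omega)
    rw [h1]
    exact key _ (by omega)

private theorem FOE_le (k r : ℕ) (h1 : k ≤ r) (h2 : r ≤ k + 2) :
    (2 * k + 2).choose (k + 3) ≤ (2 * k + 2).choose r := by
  have e1 : (2 * k + 2).choose (k + 3) ≤ (2 * k + 2).choose k := by
    rcases Nat.eq_zero_or_pos k with rfl | hk
    · simp
    · have h1 : (2 * k + 2).choose (k + 3) = (2 * k + 2).choose (k - 1) :=
        Nat.choose_symm_of_eq_add (by omega)
      rw [h1]
      have h2 := FOE_mono (2 * k + 2) 1 (k - 1) (by omega)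
      have h3 : k - 1 + 1 = k := by omega
      rwa [h3] at h2
  have e2 : (2 * k + 2).choose k ≤ (2 * k + 2).choose (k + 1) := FOE_mono (2 * k + 2) 1 k (by omega)
  have e3 : (2 * k + 2).choose (k + 2) = (2 * k + 2).choose k :=
    Nat.choose_symm_of_eq_add (by omega)
  have : r = k ∨ r = k + 1 ∨ r = k + 2 := by omega
  rcases this with rfl | rfl | rfl
  · exact e1
  · exact e1.trans e2
  · rw [e3]; exact e1

theorem FOE : FOE_stmt := by
  intro h
  rcases h with _ | k
  · norm_num
  · have e0 : 2 * (k + 1) = 2 * k + 2 := by ring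
    have hsum : ∑ r ∈ range (2 * (k + 1) + 1), max (((2 * (k + 1)).choose r : ℝ) -
        ((2 * (k + 1)).choose (k + 1 + 2) : ℝ)) 0 =
        ∑ r ∈ ({k, k + 1, k + 2} : Finset ℕ), max (((2 * (k + 1)).choose r : ℝ) -
        ((2 * (k + 1)).choose (k + 1 + 2) : ℝ)) 0 := by
      symm
      refine Finset.sum_subset ?_ ?_
      · intro r hr
        simp only [mem_insert, mem_singleton] at hr
        rw [mem_range]
        omega
      · intro r hr hr'
        rw [mem_range] at hr
        simp only [mem_insert, mem_singleton, not_or] at hr'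
        apply max_eq_right
        have := FOE_out k r (by omega) (by omega)
        have h2 : (((2 * k + 2).choose r : ℕ) : ℝ) ≤ (((2 * k + 2).choose (k + 3) : ℕ) : ℝ) := by
          exact_mod_cast this
        rw [e0]
        show (((2 * k + 2).choose r : ℕ) : ℝ) - (((2 * k + 2).choose (k + 3) : ℕ) : ℝ) ≤ 0
        linarith
    rw [hsum]
    have hm : ∀ r : ℕ, k ≤ r → r ≤ k + 2 → max (((2 * (k + 1)).choose r : ℝ) -
        ((2 * (k + 1)).choose (k + 1 + 2) : ℝ)) 0 = ((2 * k + 2).choose r : ℝ) -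
        ((2 * k + 2).choose (k + 3) : ℝ) := by
      intro r h1 h2
      have := FOE_le k r h1 h2
      have h3 : (((2 * k + 2).choose (k + 3) : ℕ) : ℝ) ≤ (((2 * k + 2).choose r : ℕ) : ℝ) := by
        exact_mod_cast this
      rw [e0]
      show max ((((2 * k + 2).choose r : ℕ) : ℝ) - (((2 * k + 2).choose (k + 3) : ℕ) : ℝ)) 0 = _
      exact max_eq_left (by linarith)
    rw [Finset.sum_insert (by simp), Finset.sum_insert (by simp), Finset.sum_singleton,
      hm k le_rfl (by omega), hm (k + 1) (by omega) (by omega), hm (k + 2) (by omega) le_rfl]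
    have s1 : (2 * k + 2).choose k = (2 * k + 2).choose (k + 2) :=
      Nat.choose_symm_of_eq_add (by omega)
    have r1 : (2 * k + 2).choose (k + 2) * (k + 2) = (2 * k + 2).choose (k + 1) * (k + 1) := by
      have := Nat.choose_succ_right_eq (2 * k + 2) (k + 1)
      have h3 : 2 * k + 2 - (k + 1) = k + 1 := by omega
      rw [h3] at this
      exact this
    have r2 : (2 * k + 2).choose (k + 3) * (k + 3) = (2 * k + 2).choose (k + 2) * k := by
      have := Nat.choose_succ_right_eq (2 * k + 2) (k + 2)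
      have h3 : 2 * k + 2 - (k + 2) = k := by omega
      rw [h3] at this
      exact this
    have r3 : (2 * (k + 1) + 2).choose (k + 1 + 1) = 2 * (2 * k + 2).choose (k + 1) +
        2 * (2 * k + 2).choose (k + 2) := by
      have h1 : (2 * k + 2 + 1 + 1).choose (k + 1 + 1) = (2 * k + 2 + 1).choose (k + 1) +
        (2 * k + 2 + 1).choose (k + 1 + 1) := Nat.choose_succ_succ' _ _
      have h2 : (2 * k + 2 + 1).choose (k + 1) = (2 * k + 2).choose k + (2 * k + 2).choose (k + 1) :=
        Nat.choose_succ_succ' _ _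
      have h3 : (2 * k + 2 + 1).choose (k + 1 + 1) = (2 * k + 2).choose (k + 1) +
        (2 * k + 2).choose (k + 1 + 1) := Nat.choose_succ_succ' _ _
      have h4 : 2 * (k + 1) + 2 = 2 * k + 2 + 1 + 1 := by ring
      rw [h4, h1, h2, h3, s1]
      ring
    rw [r3, e0, s1]
    show (2 * ((k + 1 : ℕ) : ℝ) + 2) * (4 * (((2 * k + 2).choose (k + 3) : ℕ) : ℝ) + _) ≤ _
    have q1 : (((2 * k + 2).choose (k + 2) : ℕ) : ℝ) * ((k : ℝ) + 2) =
        (((2 * k + 2).choose (k + 1) : ℕ) : ℝ) * ((k : ℝ) + 1) := by exact_mod_cast r1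
    have q2 : (((2 * k + 2).choose (k + 3) : ℕ) : ℝ) * ((k : ℝ) + 3) =
        (((2 * k + 2).choose (k + 2) : ℕ) : ℝ) * (k : ℝ) := by exact_mod_cast r2
    have hC0 : (0 : ℝ) ≤ (((2 * k + 2).choose (k + 1) : ℕ) : ℝ) := Nat.cast_nonneg _
    push_cast
    generalize (((2 * k + 2).choose (k + 1) : ℕ) : ℝ) = c0 at *
    generalize (((2 * k + 2).choose (k + 2) : ℕ) : ℝ) = c1 at *
    generalize (((2 * k + 2).choose (k + 3) : ℕ) : ℝ) = l at *
    have hk : (0 : ℝ) ≤ (k : ℝ) := Nat.cast_nonneg _
    generalize (k : ℝ) = t at *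
    have h1 : c1 = c0 * (t + 1) / (t + 2) := by
      rw [eq_div_iff (by positivity)]
      exact q1
    have h2 : l = c1 * t / (t + 3) := by
      rw [eq_div_iff (by positivity)]
      exact q2
    have h3 : c0 = (c0 / ((t + 2) * (t + 3))) * ((t + 2) * (t + 3)) := by
      field_simp
    set x : ℝ := c0 / ((t + 2) * (t + 3)) with hx
    have hx0 : 0 ≤ x := by positivity
    have h4 : c1 = x * ((t + 1) * (t + 3)) := by
      rw [h1, h3]
      field_simp
    have h5 : l = x * (t * (t + 1)) := by
      rw [h2, h4]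
      field_simp
    rw [h5, h4, h3]
    nlinarith [mul_nonneg hx0 (mul_nonneg (by positivity : (0 : ℝ) ≤ 2 * t + 3)
      (by positivity : (0 : ℝ) ≤ t + 1))]

end Pool.Agent.helper72.UP
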